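import Pool.Agent.H76.PS.Defs2
import Pool.Agent.R425.G.Ix

/-!
# Job C1: the square classes of the finite extensions of `ℚ_2`
-/

set_option autoImplicit false
set_option linter.unusedSectionVars false

open scoped Classical

namespace Pool.Agent.K7.H35.PS

open Pool.Agent.Y715.Nr Pool.Agent.H76.PS Pool.Agent.R425.G

lemma n2 : ‖(2 : PadicAlgCl 2)‖ = 1 / 2 := by
  have h := PadicAlgCl.norm_extends 2 (2 : ℚ_[2])
  have e : ((2 : ℚ_[2]) : PadicAlgCl 2) = 2 := by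
    show algebraMap ℚ_[2] (PadicAlgCl 2) 2 = 2
    exact map_ofNat _ 2
  rw [e] at h
  rw [h]
  have := @Padic.norm_p 2 _
  simpa using this

lemma n4 : ‖(4 : PadicAlgCl 2)‖ = 1 / 4 := by
  have e : (4 : PadicAlgCl 2) = 2 * 2 := by norm_num
  rw [e, norm_mul, n2]; norm_num

lemma add_le' {x y : PadicAlgCl 2} {r : ℝ} (hx : ‖x‖ ≤ r) (hy : ‖y‖ ≤ r) : ‖x + y‖ ≤ r :=
  (PadicAlgCl.isNonarchimedean 2 x y).trans (max_le hx hy)

lemma sub_le' {x y : PadicAlgCl 2} {r : ℝ} (hx : ‖x‖ ≤ r) (hy : ‖y‖ ≤ r) : ‖x - y‖ ≤ r := by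
  rw [sub_eq_add_neg]
  exact add_le' hx (by rwa [norm_neg])

lemma sum_le' {ι : Type} (s : Finset ι) (f : ι → PadicAlgCl 2) {r : ℝ} (hr : 0 ≤ r)
    (h : ∀ i ∈ s, ‖f i‖ ≤ r) : ‖∑ i ∈ s, f i‖ ≤ r := by
  induction s using Finset.induction_on with
  | empty => simpa using hr
  | insert a s ha ih =>
    rw [Finset.sum_insert ha]
    exact add_le' (h a (Finset.mem_insert_self _ _))
      (ih fun i hi => h i (Finset.mem_insert_of_mem hi))

lemma norm_one_of {x : PadicAlgCl 2} {r : ℝ} (hr : r < 1) (h : ‖x - 1‖ ≤ r) : ‖x‖ = 1 := by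
  apply le_antisymm
  · have e : x = (x - 1) + 1 := by ring
    rw [e]
    exact add_le' (h.trans hr.le) (by rw [norm_one])
  · by_contra hcon
    rw [not_le] at hcon
    have e : (1 : PadicAlgCl 2) = x - (x - 1) := by ring
    have h1 : ‖(1 : PadicAlgCl 2)‖ ≤ max ‖x‖ r := by
      rw [e]
      exact sub_le' (le_max_left _ _) (h.trans (le_max_right _ _))
    rw [norm_one] at h1
    exact absurd (max_lt hcon hr) (not_lt.2 h1)

lemma approx {c : ℚ_[2]} (hc : ‖c‖ ≤ 1) : ∃ (n : ℕ) (e : ℚ_[2]), ‖e‖ ≤ 1 ∧ c = n + 2 * e := by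
  let c' : ℤ_[2] := ⟨c, hc⟩
  have h2 : ‖c' - (c'.zmodRepr : ℤ_[2])‖ < 1 := PadicInt.norm_sub_zmodRepr_lt_one c'
  obtain ⟨e, he⟩ := (PadicInt.norm_lt_one_iff_dvd _).1 h2
  refine ⟨c'.zmodRepr, e, e.2, ?_⟩
  have h3 := congrArg (fun z : ℤ_[2] => (z : ℚ_[2])) he
  simp only [PadicInt.coe_sub, PadicInt.coe_mul, PadicInt.coe_natCast] at h3
  have h4 : (c' : ℚ_[2]) = c := rfl
  rw [h4, Nat.cast_ofNat] at h3
  linear_combination h3

lemma zm {L : IntermediateField ℚ_[2] (PadicAlgCl 2)} {x : PadicAlgCl 2} (hx : x ∈ L) (k : ℤ) :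
    x ^ k ∈ L := zpow_mem hx k

lemma pm {L : IntermediateField ℚ_[2] (PadicAlgCl 2)} {x : PadicAlgCl 2} (hx : x ∈ L) (k : ℕ) :
    x ^ k ∈ L := pow_mem hx k

variable (L : IntermediateField ℚ_[2] (PadicAlgCl 2))

/-- the integers of `L` -/
def OO : AddSubgroup (PadicAlgCl 2) where
  carrier := {x | x ∈ L ∧ ‖x‖ ≤ 1}
  add_mem' := fun {x y} hx hy => ⟨L.add_mem hx.1 hy.1, add_le' hx.2 hy.2⟩
  zero_mem' := ⟨L.zero_mem, by rw [norm_zero]; exact zero_le_one⟩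
  neg_mem' := fun {x} hx => ⟨L.neg_mem hx.1, by rw [norm_neg]; exact hx.2⟩

lemma mem_OO {x : PadicAlgCl 2} : x ∈ OO L ↔ x ∈ L ∧ ‖x‖ ≤ 1 := Iff.rfl

lemma OO_idx [FiniteDimensional ℚ_[2] L] : (Mul (OO L) 2).index ≠ 0 ∧
    (Mul (OO L) 2).index ≤ 2 ^ Module.finrank ℚ_[2] L := by
  apply mul_idx
  intro x
  have hdep : ¬ LinearIndependent ℚ_[2]
      (fun i => (⟨(x i : PadicAlgCl 2), (x i).2.1⟩ : L)) := by
    intro h
    have := h.fintype_card_le_finrank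
    simp at this
  rw [Fintype.not_linearIndependent_iff] at hdep
  obtain ⟨g, hg, i0, hi0⟩ := hdep
  obtain ⟨j, hj⟩ := Finite.exists_max (fun i => ‖g i‖)
  have gj0 : g j ≠ 0 := by
    intro h
    have h1 := hj i0
    rw [h, norm_zero] at h1
    exact hi0 (norm_le_zero_iff.1 h1)
  have hc : ∀ i, ‖g i / g j‖ ≤ 1 := by
    intro i
    rw [norm_div, div_le_one (norm_pos_iff.2 gj0)]
    exact hj i
  choose a e he hae using fun i => approx (hc i)
  have hcast : ∀ c : ℚ_[2], (c : PadicAlgCl 2) = algebraMap ℚ_[2] (PadicAlgCl 2) c := fun _ => rfl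
  have hrel : ∑ i, algebraMap ℚ_[2] (PadicAlgCl 2) (g i) * (x i : PadicAlgCl 2) = 0 := by
    have h1 := congrArg (fun z : L => (z : PadicAlgCl 2)) hg
    have h2 : ((∑ i, g i • (⟨(x i : PadicAlgCl 2), (x i).2.1⟩ : L) : L) : PadicAlgCl 2) =
        ∑ i, algebraMap ℚ_[2] (PadicAlgCl 2) (g i) * (x i : PadicAlgCl 2) := by
      rw [AddSubmonoidClass.coe_finsetSum]
      refine Finset.sum_congr rfl fun i _ => ?_
      rw [IntermediateField.coe_smul, Algebra.smul_def]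
    rw [← h2]
    exact h1
  have hrel2 : ∑ i, algebraMap ℚ_[2] (PadicAlgCl 2) (g i / g j) * (x i : PadicAlgCl 2) = 0 := by
    have h1 : ∑ i, algebraMap ℚ_[2] (PadicAlgCl 2) (g i / g j) * (x i : PadicAlgCl 2) =
        (algebraMap ℚ_[2] (PadicAlgCl 2) (g j))⁻¹ *
          ∑ i, algebraMap ℚ_[2] (PadicAlgCl 2) (g i) * (x i : PadicAlgCl 2) := by
      rw [Finset.mul_sum]
      refine Finset.sum_congr rfl fun i _ => ?_
      rw [map_div₀]
      ring
    rw [h1, hrel, mul_zero]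
  refine ⟨a, ⟨j, fun h2 => ?_⟩, ?_⟩
  · have h1 := hae j
    rw [div_self gj0] at h1
    obtain ⟨b, hb⟩ := h2
    have h3 : ‖(1 : ℚ_[2])‖ ≤ 1 / 2 := by
      have e1 : (1 : ℚ_[2]) = 2 * ((b : ℚ_[2]) + e j) := by
        rw [h1, hb]; push_cast; ring
      rw [e1, norm_mul]
      have h4 : ‖(2 : ℚ_[2])‖ = 1 / 2 := by
        have := @Padic.norm_p 2 _
        simpa using this
      have h5 : ‖(b : ℚ_[2]) + e j‖ ≤ 1 := by
        refine (Padic.nonarchimedean _ _).trans (max_le ?_ (he j))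
        exact_mod_cast Padic.norm_int_le_one (p := 2) (b : ℤ)
      rw [h4]
      nlinarith [norm_nonneg ((b : ℚ_[2]) + e j)]
    rw [norm_one] at h3
    norm_num at h3
  · have hy : ∑ i, algebraMap ℚ_[2] (PadicAlgCl 2) (-(e i)) * (x i : PadicAlgCl 2) ∈ OO L := by
      rw [mem_OO]
      refine ⟨sum_mem fun i _ => L.mul_mem (L.algebraMap_mem _) (x i).2.1, ?_⟩
      refine sum_le' _ _ zero_le_one fun i _ => ?_
      rw [norm_mul, ← hcast, PadicAlgCl.norm_extends, norm_neg]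
      exact mul_le_one₀ (he i) (norm_nonneg _) (x i).2.2
    refine ⟨⟨_, hy⟩, ?_⟩
    apply Subtype.ext
    show (((2 : ℕ) • (⟨_, hy⟩ : OO L) : OO L) : PadicAlgCl 2) = ((∑ i, a i • x i : OO L) : PadicAlgCl 2)
    rw [AddSubmonoidClass.coe_finsetSum, AddSubgroup.coe_nsmul]
    simp only [AddSubgroup.coe_nsmul, nsmul_eq_mul]
    rw [← sub_eq_zero, Finset.mul_sum, ← Finset.sum_sub_distrib]
    rw [← neg_eq_zero, ← Finset.sum_neg_distrib, ← hrel2]
    refine Finset.sum_congr rfl fun i _ => ?_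
    rw [hae i, map_add, map_natCast, map_mul, map_ofNat, map_neg]
    push_cast
    ring

/-- the units of `L` -/
def Un : Subgroup (PadicAlgCl 2)ˣ where
  carrier := {x | (x : PadicAlgCl 2) ∈ L ∧ ‖(x : PadicAlgCl 2)‖ = 1}
  mul_mem' := fun {x y} hx hy => ⟨by rw [Units.val_mul]; exact L.mul_mem hx.1 hy.1, by
    rw [Units.val_mul, norm_mul, hx.2, hy.2, one_mul]⟩
  one_mem' := ⟨by rw [Units.val_one]; exact L.one_mem, by rw [Units.val_one, norm_one]⟩
  inv_mem' := fun {x} hx => ⟨by rw [Units.val_inv_eq_inv_val]; exact L.inv_mem hx.1, by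
    rw [Units.val_inv_eq_inv_val, norm_inv, hx.2, inv_one]⟩

lemma mem_Un {x : (PadicAlgCl 2)ˣ} :
    x ∈ Un L ↔ (x : PadicAlgCl 2) ∈ L ∧ ‖(x : PadicAlgCl 2)‖ = 1 := Iff.rfl

/-- the units congruent to `1` modulo `4` -/
def U4 : Subgroup (PadicAlgCl 2)ˣ where
  carrier := {x | (x : PadicAlgCl 2) ∈ L ∧ ‖(x : PadicAlgCl 2) - 1‖ ≤ 1 / 4}
  mul_mem' := by
    intro x y hx hy
    refine ⟨by rw [Units.val_mul]; exact L.mul_mem hx.1 hy.1, ?_⟩
    have e : ((x * y : (PadicAlgCl 2)ˣ) : PadicAlgCl 2) - 1 =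
        ((x : PadicAlgCl 2) - 1) * y + ((y : PadicAlgCl 2) - 1) := by
      rw [Units.val_mul]; ring
    rw [e]
    refine add_le' ?_ hy.2
    rw [norm_mul, norm_one_of (by norm_num) hy.2, mul_one]
    exact hx.2
  one_mem' := ⟨by rw [Units.val_one]; exact L.one_mem, by
    rw [Units.val_one, sub_self, norm_zero]; norm_num⟩
  inv_mem' := by
    intro x hx
    refine ⟨by rw [Units.val_inv_eq_inv_val]; exact L.inv_mem hx.1, ?_⟩
    have e : ((x⁻¹ : (PadicAlgCl 2)ˣ) : PadicAlgCl 2) - 1 =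
        -((x : PadicAlgCl 2) - 1) * (x : PadicAlgCl 2)⁻¹ := by
      rw [Units.val_inv_eq_inv_val]
      have := x.ne_zero
      field_simp
      ring
    rw [e, norm_mul, norm_neg, norm_inv, norm_one_of (by norm_num) hx.2, inv_one, mul_one]
    exact hx.2

lemma mem_U4 {x : (PadicAlgCl 2)ˣ} :
    x ∈ U4 L ↔ (x : PadicAlgCl 2) ∈ L ∧ ‖(x : PadicAlgCl 2) - 1‖ ≤ 1 / 4 := Iff.rfl

/-- square roots of the elements congruent to `1` modulo `8` -/
lemma sqrt8 {x : PadicAlgCl 2} (hx : x ∈ L) (h : ‖x - 1‖ ≤ 1 / 8) :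
    ∃ y ∈ L, y ^ 2 = x ∧ ‖y - 1‖ ≤ 1 / 4 := by
  obtain ⟨y0, hy0⟩ := IsAlgClosed.exists_pow_nat_eq x (n := 2) (by norm_num)
  have h1 : ∃ y : PadicAlgCl 2, y ^ 2 = x ∧ ‖y - 1‖ ≤ 1 / 4 := by
    have h2 : ‖y0 - 1‖ * ‖y0 + 1‖ ≤ 1 / 8 := by
      rw [← norm_mul]
      have e : (y0 - 1) * (y0 + 1) = x - 1 := by rw [← hy0]; ring
      rw [e]; exact h
    by_cases h3 : ‖y0 - 1‖ < 1 / 2
    · have h4 : ‖y0 + 1‖ = 1 / 2 := by
        apply le_antisymm
        · have e : y0 + 1 = (y0 - 1) + 2 := by ring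
          rw [e]
          exact add_le' h3.le n2.le
        · by_contra hcon
          rw [not_le] at hcon
          have e : (2 : PadicAlgCl 2) = (y0 + 1) - (y0 - 1) := by ring
          have h5 : ‖(2 : PadicAlgCl 2)‖ ≤ max ‖y0 + 1‖ ‖y0 - 1‖ := by
            rw [e]
            exact sub_le' (le_max_left _ _) (le_max_right _ _)
          rw [n2] at h5
          exact absurd (max_lt hcon h3) (not_lt.2 h5)
      rw [h4] at h2
      exact ⟨y0, hy0, by linarith⟩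
    · rw [not_lt] at h3
      have h4 : ‖y0 + 1‖ ≤ 1 / 4 := by
        by_contra hcon
        rw [not_le] at hcon
        nlinarith [norm_nonneg (y0 - 1)]
      refine ⟨-y0, by rw [neg_sq]; exact hy0, ?_⟩
      have e : -y0 - 1 = -(y0 + 1) := by ring
      rw [e, norm_neg]
      exact h4
  obtain ⟨y, hy, hy1⟩ := h1
  refine ⟨y, ?_, hy, hy1⟩
  rw [← InfiniteGalois.fixedField_fixingSubgroup L, IntermediateField.mem_fixedField_iff]
  intro τ hτ
  have hτx : τ x = x := (IntermediateField.mem_fixingSubgroup_iff _ _).1 hτ x hx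
  have h2 : (τ y) ^ 2 = y ^ 2 := by rw [← map_pow, hy, hτx]
  rcases sq_eq_sq_iff_eq_or_eq_neg.1 h2 with h3 | h3
  · exact h3
  · exfalso
    have h4 : ‖τ y - 1‖ ≤ 1 / 4 := by
      have e : τ y - 1 = τ (y - 1) := by rw [map_sub, map_one]
      rw [e, nrm]; exact hy1
    rw [h3] at h4
    have h5 : ‖(2 : PadicAlgCl 2)‖ ≤ 1 / 4 := by
      have e : (2 : PadicAlgCl 2) = -((-y - 1) + (y - 1)) := by ring
      rw [e, norm_neg]
      exact add_le' h4 hy1
    rw [n2] at h5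
    norm_num at h5

lemma U4_le : U4 L ≤ Un L := fun _ hx => ⟨hx.1, norm_one_of (by norm_num) hx.2⟩

lemma U4_fin [FiniteDimensional ℚ_[2] L] : (U4 L).relIndex (Un L) ≠ 0 := by
  have h4 : (Mul (OO L) 4).index ≠ 0 := by
    have := mul_pow_idx (OO_idx L).1 2
    norm_num at this
    exact this
  have : Finite (OO L ⧸ Mul (OO L) 4) := by
    have : (Mul (OO L) 4).FiniteIndex := ⟨h4⟩
    exact AddSubgroup.finite_quotient_of_finiteIndex
  refine fi_of_map' (U4 L) (Un L)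
    (fun x => (QuotientAddGroup.mk (⟨((x : (PadicAlgCl 2)ˣ) : PadicAlgCl 2), x.2.1, x.2.2.le⟩ : OO L) :
      OO L ⧸ Mul (OO L) 4)) ?_
  intro x y hxy
  rw [QuotientAddGroup.eq, mem_mul] at hxy
  obtain ⟨z, hz⟩ := hxy
  have hz' := congrArg (fun w : OO L => (w : PadicAlgCl 2)) hz
  simp only [AddSubgroup.coe_nsmul, nsmul_eq_mul, AddSubgroup.coe_add, NegMemClass.coe_neg] at hz'
  push_cast at hz'
  have hy0 := (y : (PadicAlgCl 2)ˣ).ne_zero
  rw [mem_U4, Units.val_div_eq_div_val]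
  refine ⟨L.div_mem x.2.1 y.2.1, ?_⟩
  have e : ((x : (PadicAlgCl 2)ˣ) : PadicAlgCl 2) / ((y : (PadicAlgCl 2)ˣ) : PadicAlgCl 2) - 1 =
      -(4 * (z : PadicAlgCl 2)) / ((y : (PadicAlgCl 2)ˣ) : PadicAlgCl 2) := by
    rw [hz']
    field_simp
    ring
  rw [e, norm_div, norm_neg, norm_mul, n4, y.2.2, div_one]
  have := z.2.2
  nlinarith [norm_nonneg (z : PadicAlgCl 2)]

/-- the homomorphism `1 + 4 a ↦ a` modulo `2` -/
noncomputable def ff : U4 L →* Multiplicative (OO L ⧸ Mul (OO L) 2) where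
  toFun x := Multiplicative.ofAdd (QuotientAddGroup.mk
    (⟨(((x : (PadicAlgCl 2)ˣ) : PadicAlgCl 2) - 1) / 4,
      L.div_mem (L.sub_mem x.2.1 L.one_mem) (by exact_mod_cast L.natCast_mem 4), by
        rw [norm_div, n4, div_le_one (by norm_num)]; exact x.2.2⟩ : OO L))
  map_one' := by
    rw [← ofAdd_zero]
    congr 1
    rw [QuotientAddGroup.eq_zero_iff]
    refine ⟨0, ?_⟩
    apply Subtype.ext
    simp
  map_mul' := by
    intro x y
    rw [← ofAdd_add, ← QuotientAddGroup.mk_add]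
    congr 1
    rw [QuotientAddGroup.eq, mem_mul]
    have hx := x.2
    have hy := y.2
    have hm : (-2 : PadicAlgCl 2) * ((((x : (PadicAlgCl 2)ˣ) : PadicAlgCl 2) - 1) / 4 *
        ((((y : (PadicAlgCl 2)ˣ) : PadicAlgCl 2) - 1) / 4)) ∈ OO L := by
      have h4 : (4 : PadicAlgCl 2) ∈ L := by exact_mod_cast L.natCast_mem 4
      have h2 : (-2 : PadicAlgCl 2) ∈ L := by
        apply L.neg_mem; exact_mod_cast L.natCast_mem 2
      refine ⟨L.mul_mem h2 (L.mul_mem (L.div_mem (L.sub_mem hx.1 L.one_mem) h4)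
        (L.div_mem (L.sub_mem hy.1 L.one_mem) h4)), ?_⟩
      rw [norm_mul, norm_mul, norm_neg, n2, norm_div, norm_div, n4]
      have h5 : ‖((x : (PadicAlgCl 2)ˣ) : PadicAlgCl 2) - 1‖ / (1 / 4) ≤ 1 := by
        rw [div_le_one (by norm_num)]; exact hx.2
      have h6 : ‖((y : (PadicAlgCl 2)ˣ) : PadicAlgCl 2) - 1‖ / (1 / 4) ≤ 1 := by
        rw [div_le_one (by norm_num)]; exact hy.2
      have h7 : 0 ≤ ‖((y : (PadicAlgCl 2)ˣ) : PadicAlgCl 2) - 1‖ / (1 / 4) := by positivity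
      have := mul_le_one₀ h5 h7 h6
      linarith
    refine ⟨⟨_, hm⟩, ?_⟩
    apply Subtype.ext
    simp only [AddSubgroup.coe_nsmul, nsmul_eq_mul, AddSubgroup.coe_add, NegMemClass.coe_neg,
      Subgroup.coe_mul, Units.val_mul]
    push_cast
    ring

lemma ff_ker : (ff L).ker ≤ (SqrH (U4 L)).subgroupOf (U4 L) := by
  intro x hx
  rw [MonoidHom.mem_ker] at hx
  have h1 : (QuotientAddGroup.mk (⟨(((x : (PadicAlgCl 2)ˣ) : PadicAlgCl 2) - 1) / 4,
      L.div_mem (L.sub_mem x.2.1 L.one_mem) (by exact_mod_cast L.natCast_mem 4), by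
        rw [norm_div, n4, div_le_one (by norm_num)]; exact x.2.2⟩ : OO L) :
        OO L ⧸ Mul (OO L) 2) = 0 := hx
  rw [QuotientAddGroup.eq_zero_iff, mem_mul] at h1
  obtain ⟨z, hz⟩ := h1
  have hz' := congrArg (fun w : OO L => (w : PadicAlgCl 2)) hz
  simp only [AddSubgroup.coe_nsmul, nsmul_eq_mul] at hz'
  push_cast at hz'
  have h8 : ‖((x : (PadicAlgCl 2)ˣ) : PadicAlgCl 2) - 1‖ ≤ 1 / 8 := by
    have e : ((x : (PadicAlgCl 2)ˣ) : PadicAlgCl 2) - 1 = 2 * 4 * z := by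
      linear_combination (-4 : PadicAlgCl 2) * hz'
    rw [e, norm_mul, norm_mul, n2, n4]
    have := z.2.2
    nlinarith [norm_nonneg (z : PadicAlgCl 2)]
  obtain ⟨y, hy, hyx, hy1⟩ := sqrt8 L x.2.1 h8
  have hy0 : y ≠ 0 := by
    rintro rfl
    rw [zero_sub, norm_neg, norm_one] at hy1
    norm_num at hy1
  rw [Subgroup.mem_subgroupOf, mem_sqrH]
  refine ⟨Units.mk0 y hy0, ⟨hy, hy1⟩, ?_⟩
  apply Units.ext
  rw [Units.val_pow_eq_pow_val]
  exact hyx

lemma sq_idx [FiniteDimensional ℚ_[2] L] : (SqrH (U4 L)).relIndex (U4 L) ≠ 0 ∧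
    (SqrH (U4 L)).relIndex (U4 L) ≤ 2 ^ Module.finrank ℚ_[2] L := by
  obtain ⟨h1, h2⟩ := OO_idx L
  have : (Mul (OO L) 2).FiniteIndex := ⟨h1⟩
  have : Finite (OO L ⧸ Mul (OO L) 2) := AddSubgroup.finite_quotient_of_finiteIndex
  have : Finite (Multiplicative (OO L ⧸ Mul (OO L) 2)) := this
  obtain ⟨h3, h4⟩ := idx_of_ker (ff L) _ (ff_ker L)
  refine ⟨h3, h4.trans ?_⟩
  exact h2

lemma two_inj : Function.Injective (fun x : Two (Un L) =>
    decide ((((x : Un L) : (PadicAlgCl 2)ˣ) : PadicAlgCl 2) = 1)) := by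
    intro x y hxy
    have key : ∀ x : Two (Un L), (((x : Un L) : (PadicAlgCl 2)ˣ) : PadicAlgCl 2) = 1 ∨
        (((x : Un L) : (PadicAlgCl 2)ˣ) : PadicAlgCl 2) = -1 := by
      intro x
      have h1 : ((x : Un L)) ^ 2 = 1 := x.2
      have h2 := congrArg (fun w : Un L => (((w : (PadicAlgCl 2)ˣ)) : PadicAlgCl 2)) h1
      simp only [Subgroup.coe_pow, Units.val_pow_eq_pow_val, Subgroup.coe_one, Units.val_one] at h2
      exact sq_eq_sq_iff_eq_or_eq_neg.1 (h2.trans (one_pow 2).symm)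
    apply Subtype.ext
    apply Subtype.ext
    apply Units.ext
    have h3 := decide_eq_decide.1 hxy
    rcases key x with h4 | h4 <;> rcases key y with h5 | h5
    · rw [h4, h5]
    · rw [h4, h3.1 h4]
    · rw [h5, h3.2 h5]
    · rw [h4, h5]

lemma two_card : Nat.card (Two (Un L)) ≤ 2 := by
  have h : Nat.card (Two (Un L)) ≤ Nat.card Bool :=
    Nat.card_le_card_of_injective _ (two_inj L)
  simpa using h

/-- the square classes of the units -/
lemma un_idx [FiniteDimensional ℚ_[2] L] : ((SqrH (Un L)).subgroupOf (Un L)).index ≠ 0 ∧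
    ((SqrH (Un L)).subgroupOf (Un L)).index ≤ 2 ^ (Module.finrank ℚ_[2] L + 1) := by
  have h := herbrand_rel (U4_le L) (U4_fin L) (by
    intro x hx hx2
    have h2 := congrArg Units.val hx2
    rw [Units.val_pow_eq_pow_val, Units.val_one] at h2
    rcases sq_eq_sq_iff_eq_or_eq_neg.1 (h2.trans (one_pow 2).symm) with h3 | h3
    · exact Units.ext h3
    · exfalso
      have h4 := hx.2
      rw [h3] at h4
      have e : (-1 - 1 : PadicAlgCl 2) = -2 := by norm_num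
      rw [e, norm_neg, n2] at h4
      norm_num at h4)
  have h1 : ((SqrH (Un L)).subgroupOf (Un L)).index = (SqrH (Un L)).relIndex (Un L) := rfl
  obtain ⟨h2, h3⟩ := sq_idx L
  have hfin : Finite (Two (Un L)) := by
    refine Finite.of_injective
      (fun x : Two (Un L) => decide ((((x : Un L) : (PadicAlgCl 2)ˣ) : PadicAlgCl 2) = 1)) ?_
    exact two_inj L
  have h4 : 0 < Nat.card (Two (Un L)) := Nat.card_pos
  rw [h1, h]
  refine ⟨mul_ne_zero h2 h4.ne', ?_⟩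
  rw [pow_succ]
  exact Nat.mul_le_mul h3 (two_card L)

/-- the valuations of `L` are the powers of one element -/
lemma exists_unif [FiniteDimensional ℚ_[2] L] : ∃ π ∈ L, π ≠ 0 ∧
    ∀ x ∈ L, x ≠ 0 → ∃ k : ℤ, ‖x * π ^ k‖ = 1 := by
  set S : Set ℝ := {r | 1 / 2 < r ∧ r < 1 ∧ ∃ x ∈ L, ‖x‖ = r} with hS
  have hSf : S.Finite := by
    obtain ⟨h1, h2⟩ := OO_idx L
    have : (Mul (OO L) 2).FiniteIndex := ⟨h1⟩
    have : Finite (OO L ⧸ Mul (OO L) 2) := AddSubgroup.finite_quotient_of_finiteIndex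
    choose x hx hxr using fun r : S => r.2.2.2
    have : Finite S := by
      refine Finite.of_injective (fun r : S => (QuotientAddGroup.mk
        (⟨x r, hx r, by rw [hxr]; exact r.2.2.1.le⟩ : OO L) : OO L ⧸ Mul (OO L) 2)) ?_
      intro r r' hrr
      simp only at hrr
      rw [QuotientAddGroup.eq, mem_mul] at hrr
      obtain ⟨z, hz⟩ := hrr
      have hz' := congrArg (fun w : OO L => (w : PadicAlgCl 2)) hz
      simp only [AddSubgroup.coe_nsmul, nsmul_eq_mul, AddSubgroup.coe_add,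
        NegMemClass.coe_neg] at hz'
      push_cast at hz'
      have h3 : ‖x r' - x r‖ ≤ 1 / 2 := by
        have e : x r' - x r = 2 * z := by rw [hz']; ring
        rw [e, norm_mul, n2]
        have := z.2.2
        nlinarith [norm_nonneg (z : PadicAlgCl 2)]
      apply Subtype.ext
      rw [← hxr r, ← hxr r']
      have hr1 : 1 / 2 < ‖x r‖ := by rw [hxr]; exact r.2.1
      have hr2 : 1 / 2 < ‖x r'‖ := by rw [hxr]; exact r'.2.1
      apply le_antisymm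
      · have e : x r = x r' - (x r' - x r) := by ring
        rw [e]
        exact sub_le' le_rfl (h3.trans hr2.le)
      · have e : x r' = x r + (x r' - x r) := by ring
        nth_rewrite 1 [e]
        exact add_le' le_rfl (h3.trans hr1.le)
    exact Set.toFinite S
  obtain ⟨ρ, hρ, hmax⟩ := Set.exists_max_image (S ∪ {1 / 2}) id
    (hSf.union (Set.finite_singleton _)) ⟨1 / 2, Or.inr rfl⟩
  have hρ1 : 1 / 2 ≤ ρ := hmax (1 / 2) (Or.inr rfl)
  have hρ2 : ρ < 1 := by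
    rcases hρ with h | h
    · exact h.2.1
    · rw [Set.mem_singleton_iff.1 h]; norm_num
  obtain ⟨π, hπ, hπn⟩ : ∃ π ∈ L, ‖π‖ = ρ := by
    rcases hρ with h | h
    · exact h.2.2
    · refine ⟨2, by exact_mod_cast L.natCast_mem 2, ?_⟩
      rw [Set.mem_singleton_iff.1 h, n2]
  have hρ0 : 0 < ρ := by linarith
  have hπ0 : π ≠ 0 := by
    rw [← norm_ne_zero_iff, hπn]; exact hρ0.ne'
  refine ⟨π, hπ, hπ0, fun x hx hx0 => ?_⟩
  have hy : 1 < ρ⁻¹ := (one_lt_inv₀ hρ0).2 hρ2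
  obtain ⟨n, hn1, hn2⟩ := exists_mem_Ioc_zpow (norm_pos_iff.2 hx0) hy
  refine ⟨n + 1, ?_⟩
  have hmul : ‖x * π ^ (n + 1)‖ = ‖x‖ * ρ ^ (n + 1) := by rw [norm_mul, norm_zpow, hπn]
  have hle : ‖x * π ^ (n + 1)‖ ≤ 1 := by
    rw [hmul]
    calc ‖x‖ * ρ ^ (n + 1) ≤ ρ⁻¹ ^ (n + 1) * ρ ^ (n + 1) := by
          gcongr
      _ = 1 := by rw [inv_zpow, inv_mul_cancel₀ (zpow_ne_zero _ hρ0.ne')]
  have hgt : ρ < ‖x * π ^ (n + 1)‖ := by
    rw [hmul]
    calc ρ = ρ⁻¹ ^ n * ρ ^ (n + 1) := by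
          rw [inv_zpow, zpow_add₀ hρ0.ne', zpow_one, ← mul_assoc,
            inv_mul_cancel₀ (zpow_ne_zero _ hρ0.ne'), one_mul]
      _ < ‖x‖ * ρ ^ (n + 1) := by
          gcongr
  by_contra hne
  have hlt : ‖x * π ^ (n + 1)‖ < 1 := lt_of_le_of_ne hle hne
  have hmem : ‖x * π ^ (n + 1)‖ ∈ S ∪ {1 / 2} :=
    Or.inl ⟨lt_of_le_of_lt hρ1 hgt, hlt, _, L.mul_mem hx (zm hπ _), rfl⟩
  exact absurd (hmax _ hmem) (not_le.2 hgt)

/-- Job C1. -/
theorem stC1 : StC1 := by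
  intro L hL
  obtain ⟨π, hπ, hπ0, hval⟩ := exists_unif L
  obtain ⟨h1, h2⟩ := un_idx L
  have : ((SqrH (Un L)).subgroupOf (Un L)).FiniteIndex := ⟨h1⟩
  have : Finite (Un L ⧸ (SqrH (Un L)).subgroupOf (Un L)) :=
    Subgroup.finite_quotient_of_finiteIndex
  have := Fintype.ofFinite (Un L ⧸ (SqrH (Un L)).subgroupOf (Un L))
  refine ⟨(Finset.univ : Finset ((Un L ⧸ (SqrH (Un L)).subgroupOf (Un L)) × Fin 2)).image
    (fun q => (((q.1.out : Un L) : (PadicAlgCl 2)ˣ) : PadicAlgCl 2) * π ^ (q.2 : ℕ)), ?_, ?_⟩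
  · refine Finset.card_image_le.trans ?_
    rw [Finset.card_univ, Fintype.card_prod, Fintype.card_fin, ← Nat.card_eq_fintype_card]
    have h3 : Nat.card (Un L ⧸ (SqrH (Un L)).subgroupOf (Un L)) ≤
      2 ^ (Module.finrank ℚ_[2] L + 1) := h2
    have e : 2 ^ (Module.finrank ℚ_[2] L + 2) = 2 ^ (Module.finrank ℚ_[2] L + 1) * 2 := by ring
    rw [e]
    exact Nat.mul_le_mul h3 le_rfl
  · intro x hx hx0
    obtain ⟨k, hk⟩ := hval x hx hx0
    have hu0 : x * π ^ k ≠ 0 := mul_ne_zero hx0 (zpow_ne_zero _ hπ0)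
    set u : Un L := ⟨Units.mk0 (x * π ^ k) hu0, L.mul_mem hx (zm hπ _), hk⟩ with hu
    set q : Un L ⧸ (SqrH (Un L)).subgroupOf (Un L) := QuotientGroup.mk u with hq
    have hqo : (QuotientGroup.mk (q.out) : Un L ⧸ (SqrH (Un L)).subgroupOf (Un L)) =
      QuotientGroup.mk u := QuotientGroup.out_eq' q
    rw [QuotientGroup.eq, Subgroup.mem_subgroupOf, mem_sqrH] at hqo
    obtain ⟨y, hy, hyq⟩ := hqo
    have hyq' := congrArg Units.val hyq
    simp only [Units.val_pow_eq_pow_val, Subgroup.coe_mul, Subgroup.coe_inv, Units.val_mul,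
      Units.val_inv_eq_inv_val] at hyq'
    have hr0 := ((q.out : Un L) : (PadicAlgCl 2)ˣ).ne_zero
    have hxu : x * π ^ k = (((q.out : Un L) : (PadicAlgCl 2)ˣ) : PadicAlgCl 2) * (y : PadicAlgCl 2) ^ 2 := by
      rw [hyq', mul_inv_cancel_left₀ hr0]
      rfl
    obtain ⟨l, j, hj, hkl⟩ : ∃ (l : ℤ) (j : ℕ), j < 2 ∧ -k = 2 * l + j := by
      refine ⟨(-k) / 2, ((-k) % 2).toNat, ?_, ?_⟩
      · have := Int.emod_lt_of_pos (-k) (show (0 : ℤ) < 2 by norm_num)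
        have := Int.emod_nonneg (-k) (show (2 : ℤ) ≠ 0 by norm_num)
        omega
      · have := Int.emod_nonneg (-k) (show (2 : ℤ) ≠ 0 by norm_num)
        rw [Int.toNat_of_nonneg this]
        exact (Int.mul_ediv_add_emod (-k) 2).symm
    refine ⟨(((q.out : Un L) : (PadicAlgCl 2)ˣ) : PadicAlgCl 2) * π ^ j, ?_, (y : PadicAlgCl 2) * π ^ l,
      L.mul_mem hy.1 (zm hπ _), L.mul_mem (q.out : Un L).2.1 (pm hπ _),
      mul_ne_zero hr0 (pow_ne_zero _ hπ0), ?_⟩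
    · rw [Finset.mem_image]
      exact ⟨(q, ⟨j, hj⟩), Finset.mem_univ _, rfl⟩
    · have e1 : x = (x * π ^ k) * π ^ (-k) := by
        rw [mul_assoc, ← zpow_add₀ hπ0, add_neg_cancel, zpow_zero, mul_one]
      rw [e1, hxu, hkl, zpow_add₀ hπ0, zpow_mul', zpow_natCast]
      have e2 : (π ^ l) ^ (2 : ℤ) = (π ^ l) ^ 2 := by norm_cast
      rw [e2]
      ring

end Pool.Agent.K7.H35.PS
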