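import Pool.Agent.H76.PS.Defs3

set_option autoImplicit false

/-!
# PS, job TOP (helper35): the topology of the coefficient ring
-/

namespace Pool.Agent.K7.H35.PS

open Pool.Agent.H76.PS IsLocalRing

lemma digit (c : ℤ_[2]) : ∃ (n : Fin 2) (e : ℤ_[2]), c = ((n : ℕ) : ℤ_[2]) + 2 * e := by
  have h2 : ‖c - (c.zmodRepr : ℤ_[2])‖ < 1 := PadicInt.norm_sub_zmodRepr_lt_one c
  obtain ⟨e, he⟩ := (PadicInt.norm_lt_one_iff_dvd _).1 h2
  refine ⟨⟨c.zmodRepr, c.zmodRepr_lt_p⟩, e, ?_⟩
  rw [Nat.cast_ofNat] at he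
  linear_combination he

lemma two_not_dvd_one : ¬ ((2 : ℤ_[2]) ∣ 1) := by
  intro h
  have h1 : IsUnit (2 : ℤ_[2]) := isUnit_of_dvd_one h
  rw [PadicInt.isUnit_iff] at h1
  have h2 : ‖(2 : ℤ_[2])‖ = 1 / 2 := by
    have := @PadicInt.norm_p 2 _
    simpa using this
  rw [h2] at h1
  norm_num at h1

lemma norm_le_iff_dvd (x : ℤ_[2]) (n : ℕ) : ‖x‖ ≤ (1 / 2 : ℝ) ^ n ↔ (2 : ℤ_[2]) ^ n ∣ x := by
  have h := PadicInt.norm_le_pow_iff_mem_span_pow x n
  rw [Ideal.mem_span_singleton] at h
  push_cast at h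
  rw [← h, zpow_neg, zpow_natCast, one_div, inv_pow]

section

variable {A : Type} [CommRing A] [Algebra ℤ_[2] A] {r : ℕ} (b : Module.Basis (Fin r) ℤ_[2] A)

lemma two_smul' (n : ℕ) (y : A) : ((2 : ℤ_[2]) ^ n) • y = (2 : A) ^ n * y := by
  rw [Algebra.smul_def, map_pow, map_ofNat]

include b in
lemma dvd_iff (n : ℕ) (x : A) : (2 : A) ^ n ∣ x ↔ ∀ e, (2 : ℤ_[2]) ^ n ∣ b.repr x e := by
  constructor
  · rintro ⟨y, rfl⟩ e
    rw [← two_smul', map_smul]
    exact ⟨b.repr y e, rfl⟩
  · intro h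
    choose c hc using h
    refine ⟨∑ e, c e • b e, ?_⟩
    rw [← two_smul', Finset.smul_sum]
    conv_lhs => rw [← b.sum_repr x]
    apply Finset.sum_congr rfl
    intro e _
    rw [hc, smul_smul]

include b in
lemma finite_quot : Finite (A ⧸ Ideal.span {(2 : A)}) := by
  let F : (Fin r → Fin 2) → A ⧸ Ideal.span {(2 : A)} := fun n =>
    Ideal.Quotient.mk _ (∑ e, (((n e : Fin 2) : ℕ) : ℤ_[2]) • b e)
  apply Finite.of_surjective F
  intro x
  obtain ⟨a, rfl⟩ := Ideal.Quotient.mk_surjective x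
  choose n d hnd using fun e => digit (b.repr a e)
  refine ⟨n, ?_⟩
  rw [eq_comm, Ideal.Quotient.mk_eq_mk_iff_sub_mem, Ideal.mem_span_singleton]
  refine ⟨∑ e, d e • b e, ?_⟩
  have h1 : (2 : A) * ∑ e, d e • b e = ∑ e, (2 * d e) • b e := by
    have := two_smul' 1 (∑ e, d e • b e)
    rw [pow_one, pow_one] at this
    rw [← this, Finset.smul_sum]
    exact Finset.sum_congr rfl fun e _ => smul_smul _ _ _
  rw [h1]
  conv_lhs => rw [← b.sum_repr a]
  rw [← Finset.sum_sub_distrib]
  apply Finset.sum_congr rfl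
  intro e _
  rw [← sub_smul, hnd e]
  congr 1
  ring

end

/-- Job TOP. -/
theorem stTop : StTop := by
  intro A _ _ _ _ _ _ hA r b
  have hfin : Module.Finite ℤ_[2] A := Module.Finite.of_basis b
  have hN : IsNoetherianRing A := IsNoetherianRing.of_finite ℤ_[2] A
  obtain ⟨e0⟩ : Nonempty (Fin r) := b.index_nonempty
  have h2u : ¬ IsUnit (2 : A) := by
    intro h
    have h1 : (2 : A) ^ 1 ∣ b e0 := by
      rw [pow_one]
      exact h.dvd
    have h2 := (dvd_iff b 1 (b e0)).1 h1 e0
    rw [pow_one, Module.Basis.repr_self, Finsupp.single_eq_same] at h2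
    exact two_not_dvd_one h2
  have h2m : (2 : A) ∈ maximalIdeal A := (mem_maximalIdeal _).2 h2u
  have h20 : (2 : A) ≠ 0 := by
    intro h
    have h1 := two_smul' 1 (b e0)
    rw [pow_one, pow_one, h, zero_mul] at h1
    have h2 := congrArg (fun a => b.repr a e0) h1
    simp only [map_smul, Finsupp.smul_apply, Module.Basis.repr_self, Finsupp.single_eq_same,
      map_zero, Finsupp.coe_zero, Pi.zero_apply, smul_eq_mul, mul_one] at h2
    exact two_ne_zero h2
  have hq : Finite (A ⧸ Ideal.span {(2 : A)}) := finite_quot b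
  have hle : Ideal.span {(2 : A)} ≤ maximalIdeal A := by
    rw [Ideal.span_le, Set.singleton_subset_iff]
    exact h2m
  have hres : Finite (ResidueField A) :=
    Finite.of_surjective (Ideal.Quotient.factor hle) (Ideal.Quotient.factor_surjective hle)
  have hrad : maximalIdeal A ≤ (Ideal.span {(2 : A)}).radical := by
    intro a ha
    obtain ⟨i, j, hij, he⟩ := Finite.exists_ne_map_eq_of_infinite
      (fun i : ℕ => Ideal.Quotient.mk (Ideal.span {(2 : A)}) (a ^ i))
    have key : ∀ i j : ℕ, i < j → Ideal.Quotient.mk (Ideal.span {(2 : A)}) (a ^ i) =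
        Ideal.Quotient.mk (Ideal.span {(2 : A)}) (a ^ j) → a ^ i ∈ Ideal.span {(2 : A)} := by
      intro i j hij he
      rw [Ideal.Quotient.mk_eq_mk_iff_sub_mem] at he
      have h1 : a ^ i - a ^ j = a ^ i * (1 - a ^ (j - i)) := by
        rw [mul_sub, mul_one, ← pow_add, Nat.add_sub_cancel' hij.le]
      rw [h1] at he
      have hu : IsUnit (1 - a ^ (j - i)) := by
        by_contra hnu
        have h3 : (1 - a ^ (j - i)) ∈ maximalIdeal A := (mem_maximalIdeal _).2 hnu
        have h4 : a ^ (j - i) ∈ maximalIdeal A :=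
          Ideal.pow_mem_of_mem _ ha _ (by omega)
        have h5 : (1 : A) ∈ maximalIdeal A := by
          have := Ideal.add_mem _ h3 h4
          rwa [sub_add_cancel] at this
        exact (mem_maximalIdeal (1 : A)).1 h5 isUnit_one
      exact (Ideal.mul_unit_mem_iff_mem _ hu).1 he
    rcases lt_or_gt_of_ne hij with h | h
    · exact ⟨i, key i j h he⟩
    · exact ⟨j, key j i h he.symm⟩
  obtain ⟨E, hE⟩ := Ideal.exists_pow_le_of_le_radical_of_fg hrad (IsNoetherian.noetherian _)
  have hE1 : maximalIdeal A ^ (E + 1) ≤ Ideal.span {(2 : A)} :=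
    (Ideal.pow_le_pow_right (Nat.le_succ E)).trans hE
  have hEn : ∀ n : ℕ, ∀ x ∈ maximalIdeal A ^ ((E + 1) * n), (2 : A) ^ n ∣ x := by
    intro n x hx
    rw [pow_mul] at hx
    have h1 := Ideal.pow_right_mono hE1 n hx
    rwa [Ideal.span_singleton_pow, Ideal.mem_span_singleton] at h1
  have h2n : ∀ n : ℕ, ∀ x : A, (2 : A) ^ n ∣ x → x ∈ maximalIdeal A ^ n := by
    intro n x hx
    have h1 : x ∈ (Ideal.span {(2 : A)}) ^ n := by
      rwa [Ideal.span_singleton_pow, Ideal.mem_span_singleton]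
    exact Ideal.pow_right_mono hle n h1
  refine ⟨h2m, h20, hres, ?_, hN, ?_, ?_⟩
  · have hH : IsHausdorff (maximalIdeal A) A :=
      IsHausdorff.of_isLocalRing _ A (Ideal.IsPrime.ne_top inferInstance)
    have hP : IsPrecomplete (maximalIdeal A) A := by
      constructor
      intro f hf
      have hf' : ∀ m n : ℕ, m ≤ n → f m - f n ∈ maximalIdeal A ^ m := by
        intro m n hmn
        have := hf hmn
        rwa [SModEq.sub_mem, smul_eq_mul, Ideal.mul_top] at this
      have hc : ∀ e : Fin r, ∃ L : ℤ_[2], ∀ n : ℕ, (2 : ℤ_[2]) ^ n ∣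
          b.repr (f ((E + 1) * n)) e - L := by
        intro e
        have hcomp : IsPrecomplete (maximalIdeal ℤ_[2]) ℤ_[2] := inferInstance
        obtain ⟨L, hL⟩ := hcomp.prec (f := fun n => b.repr (f ((E + 1) * n)) e) (by
          intro m n hmn
          rw [SModEq.sub_mem, smul_eq_mul, Ideal.mul_top, PadicInt.maximalIdeal_eq_span_p,
            Ideal.span_singleton_pow, Ideal.mem_span_singleton]
          have h1 := hf' ((E + 1) * m) ((E + 1) * n) (Nat.mul_le_mul le_rfl hmn)
          have h2 := (dvd_iff b m _).1 (hEn m _ h1) e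
          simpa using h2)
        refine ⟨L, fun n => ?_⟩
        have h3 := hL n
        rw [SModEq.sub_mem, smul_eq_mul, Ideal.mul_top, PadicInt.maximalIdeal_eq_span_p,
            Ideal.span_singleton_pow, Ideal.mem_span_singleton] at h3
        simpa using h3
      choose L hL using hc
      refine ⟨∑ e, L e • b e, fun n => ?_⟩
      rw [SModEq.sub_mem, smul_eq_mul, Ideal.mul_top]
      have h1 : f n - f ((E + 1) * n) ∈ maximalIdeal A ^ n :=
        hf' n _ (Nat.le_mul_of_pos_left n (Nat.succ_pos E))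
      have h2 : f ((E + 1) * n) - ∑ e, L e • b e ∈ maximalIdeal A ^ n := by
        apply h2n
        rw [dvd_iff b]
        intro e
        rw [map_sub, Finsupp.sub_apply, Module.Basis.repr_sum_self]
        exact hL e n
      have h3 := Ideal.add_mem _ h1 h2
      rwa [sub_add_sub_cancel] at h3
    exact { hH, hP with }
  · intro e
    let φ : A →+ ℤ_[2] := ⟨⟨fun a => b.repr a e, by simp⟩, fun x y => by simp⟩
    have : Continuous φ := by
      apply continuous_of_continuousAt_zero
      rw [ContinuousAt, map_zero, hA.hasBasis_nhds_zero.tendsto_iff Metric.nhds_basis_closedBall]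
      intro ε hε
      obtain ⟨n, hn⟩ := exists_pow_lt_of_lt_one hε (show (1 / 2 : ℝ) < 1 by norm_num)
      refine ⟨(E + 1) * n, trivial, fun x hx => ?_⟩
      rw [Metric.mem_closedBall, dist_zero_right]
      exact ((norm_le_iff_dvd _ _).2 ((dvd_iff b n x).1 (hEn n x hx) e)).trans hn.le
    exact this
  · have : Continuous (algebraMap ℤ_[2] A).toAddMonoidHom := by
      apply continuous_of_continuousAt_zero
      rw [ContinuousAt, map_zero, Metric.nhds_basis_closedBall.tendsto_iff hA.hasBasis_nhds_zero]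
      intro n _
      refine ⟨(1 / 2 : ℝ) ^ n, by positivity, fun x hx => ?_⟩
      rw [Metric.mem_closedBall, dist_zero_right, norm_le_iff_dvd] at hx
      obtain ⟨y, rfl⟩ := hx
      apply h2n
      refine ⟨algebraMap ℤ_[2] A y, ?_⟩
      change algebraMap ℤ_[2] A (2 ^ n * y) = _
      rw [map_mul, map_pow, map_ofNat]
    exact this

end Pool.Agent.K7.H35.PS
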